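import Pool.Agent.EWC.Fin

/-!
# MP_27e0e0_lc: the monotone and antimonotone collapse for the EW-hierarchy, up to a small
exponential term

For `t ≥ 2` let `P` be `p-WSAT(Γ⁺_{t+1,d})` if `t` is even and `p-WSAT(Γ⁻_{t+1,d})` if `t` is odd.
For every real `c > 0` there is a map `R`, computable in time `2^{O(κ)} |x|^{O(1)}`, which reduces
`P` to `p-WSAT(Γ_{t,1})` and satisfies `κ'(R(x)) ≤ κ(x) + C min (2^{κ(x)/c}, |x|^{1/c})`; hence the
restriction of `P` to the instances with `κ ≤ c log log |x|` or `|x| ≤ κ^c` is in `EW[t]`.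
-/

set_option autoImplicit false

namespace Pool.Agent.Results.MP_27e0e0_lc.Collapse

open EWC

theorem result (t d : ℕ) (ht : 2 ≤ t) (c : ℝ) (hc : 0 < c) :
    (∃ R : (pWSAT (some (decide (Even t))) (t + 1) d).X → (pWSAT none t 1).X,
      EptComp (pWSAT (some (decide (Even t))) (t + 1) d) (pWSAT none t 1) R ∧
      ∃ C : ℝ, ∀ x, ((pWSAT none t 1).par (R x) : ℝ) ≤
        ((pWSAT (some (decide (Even t))) (t + 1) d).par x : ℝ) + C * min
          ((2 : ℝ) ^ (((pWSAT (some (decide (Even t))) (t + 1) d).par x : ℝ) / c))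
          (((pWSAT (some (decide (Even t))) (t + 1) d).len x : ℝ) ^ (1 / c))) ∧
    EW t ((pWSAT (some (decide (Even t))) (t + 1) d).restrict fun x =>
      ((pWSAT (some (decide (Even t))) (t + 1) d).par x : ℝ) ≤
        c * Real.log (Real.log ((pWSAT (some (decide (Even t))) (t + 1) d).len x)) ∨
      ((pWSAT (some (decide (Even t))) (t + 1) d).len x : ℝ) ≤
        ((pWSAT (some (decide (Even t))) (t + 1) d).par x : ℝ) ^ c) := by
  refine ⟨?_, main_slice t d ht c hc⟩
  obtain ⟨R, hR, C, hC⟩ := main t d ht (1 / c) (by positivity)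
  refine ⟨R, hR, C, fun x => ?_⟩
  have h := hC x
  rwa [show (1 / c) * ((pWSAT (some (decide (Even t))) (t + 1) d).par x : ℝ) =
    ((pWSAT (some (decide (Even t))) (t + 1) d).par x : ℝ) / c by ring] at h

end Pool.Agent.Results.MP_27e0e0_lc.Collapse
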