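import Pool.Agent.EWC.Fin3

/-!
# MP_27e0e0_lc: formulas whose subformulas of depth one have bounded length

The problem of `Collapse` restricted to the formulas whose subformulas of depth one have at most
`w` members reduces to `p-WSAT(Γ_{t,1})` with `κ'(R(x)) ≤ κ(x) + (min (κ(x), log |x|) + 1)^w`;
hence it is in `EW[t]` on the instances with `κ^w ≤ c log |x|` or `(log |x|)^w ≤ c κ`.
-/

set_option autoImplicit false

namespace Pool.Agent.Results.MP_27e0e0_lc.ShortLeaves

open EWC

theorem result (t d w c : ℕ) (ht : 2 ≤ t) :
    (∃ R : (pWSATw (some (decide (Even t))) t d w).X → (pWSAT none t 1).X,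
      EptComp (pWSATw (some (decide (Even t))) t d w) (pWSAT none t 1) R ∧
      ∀ x, (pWSAT none t 1).par (R x) ≤ (pWSATw (some (decide (Even t))) t d w).par x +
        (min ((pWSATw (some (decide (Even t))) t d w).par x)
          (Nat.log 2 ((pWSATw (some (decide (Even t))) t d w).len x)) + 1) ^ w) ∧
    EW t ((pWSATw (some (decide (Even t))) t d w).restrict fun x =>
      ((pWSATw (some (decide (Even t))) t d w).par x) ^ w ≤
        c * Nat.log 2 ((pWSATw (some (decide (Even t))) t d w).len x) ∨
      (Nat.log 2 ((pWSATw (some (decide (Even t))) t d w).len x)) ^ w ≤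
        c * (pWSATw (some (decide (Even t))) t d w).par x) :=
  ⟨main3 t d w ht, main3_slice t d w c ht⟩

end Pool.Agent.Results.MP_27e0e0_lc.ShortLeaves
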